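import Mathlib
import Pool.Agent.Helper902.NAJames

/-!
# James' theorem

A real Banach space all of whose continuous functionals attain their norm is reflexive. The proof
follows R. C. James, Reflexivity and the sup of linear functionals (1972).
-/

set_option autoImplicit false

open Filter Topology Set

namespace Pool.Agent.H516J

variable {X : Type*} [NormedAddCommGroup X] [NormedSpace ℝ X]

/-- `g` is a sequence of convex blocks of `h`. -/
def Blk (h g : ℕ → StrongDual ℝ X) : Prop := ∀ n, g n ∈ convexHull ℝ (h '' {k | n ≤ k})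

/-- `g` is a sequence of convex blocks of `h`, shifted by one. -/
def SBlk (h g : ℕ → StrongDual ℝ X) : Prop := ∀ n, g n ∈ convexHull ℝ (h '' {k | n + 1 ≤ k})

/-- the functionals below the upper limit of the sequence `h` -/
def LL (h : ℕ → StrongDual ℝ X) : Set (StrongDual ℝ X) :=
  {w | ∀ x : X, ∀ c : ℝ, (∀ᶠ n in atTop, h n x ≤ c) → w x ≤ c}

theorem Blk.refl (h : ℕ → StrongDual ℝ X) : Blk h h := fun n =>
  subset_convexHull ℝ _ ⟨n, le_refl n, rfl⟩

theorem SBlk.blk {h g : ℕ → StrongDual ℝ X} (H : SBlk h g) : Blk h g := fun n => by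
  refine convexHull_mono (image_mono ?_) (H n)
  intro k hk
  simp only [mem_ofPred_eq] at hk ⊢
  omega

theorem Blk.trans {h g g' : ℕ → StrongDual ℝ X} (H : Blk h g) (H' : Blk g g') : Blk h g' := by
  intro n
  refine convexHull_min ?_ (convex_convexHull ℝ _) (H' n)
  rintro _ ⟨k, hk, rfl⟩
  refine convexHull_mono (image_mono ?_) (H k)
  intro i hi
  simp only [mem_ofPred_eq] at hk hi ⊢
  omega

theorem Blk.strans {h g g' : ℕ → StrongDual ℝ X} (H : Blk h g) (H' : SBlk g g') : SBlk h g' := by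
  intro n
  refine convexHull_min ?_ (convex_convexHull ℝ _) (H' n)
  rintro _ ⟨k, hk, rfl⟩
  refine convexHull_mono (image_mono ?_) (H k)
  intro i hi
  simp only [mem_ofPred_eq] at hk hi ⊢
  omega

/-- evaluation bounds pass to convex hulls -/
theorem le_of_mem_hull {S : Set (StrongDual ℝ X)} {x : X} {c : ℝ} (h : ∀ u ∈ S, u x ≤ c)
    {g : StrongDual ℝ X} (hg : g ∈ convexHull ℝ S) : g x ≤ c := by
  have hconv : Convex ℝ {u : StrongDual ℝ X | u x ≤ c} := by
    intro u hu v hv a b ha hb hab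
    simp only [mem_ofPred_eq] at hu hv ⊢
    have : (a • u + b • v) x = a * u x + b * v x := by simp
    rw [this]
    calc a * u x + b * v x ≤ a * c + b * c :=
          add_le_add (mul_le_mul_of_nonneg_left hu ha) (mul_le_mul_of_nonneg_left hv hb)
      _ = c := by rw [← add_mul, hab, one_mul]
  exact convexHull_min h hconv hg

theorem norm_le_of_mem_hull {S : Set (StrongDual ℝ X)} (h : ∀ u ∈ S, ‖u‖ ≤ 1)
    {g : StrongDual ℝ X} (hg : g ∈ convexHull ℝ S) : ‖g‖ ≤ 1 := by
  have hconv : Convex ℝ (Metric.closedBall (0 : StrongDual ℝ X) 1) := convex_closedBall _ _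
  have h1 := convexHull_min (s := S) (t := Metric.closedBall (0 : StrongDual ℝ X) 1)
    (fun u hu => by simpa using h u hu) hconv hg
  simpa using h1

theorem Blk.LL_subset {h g : ℕ → StrongDual ℝ X} (H : Blk h g) : LL g ⊆ LL h := by
  intro w hw x c hc
  refine hw x c ?_
  obtain ⟨N, hN⟩ := eventually_atTop.1 hc
  filter_upwards [eventually_ge_atTop N] with n hn
  refine le_of_mem_hull ?_ (H n)
  rintro _ ⟨k, hk, rfl⟩
  exact hN k (le_trans hn hk)

theorem norm_le_of_LL {h : ℕ → StrongDual ℝ X} (hb : ∀ n, ‖h n‖ ≤ 1) {w : StrongDual ℝ X}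
    (hw : w ∈ LL h) : ‖w‖ ≤ 1 := by
  refine ContinuousLinearMap.opNorm_le_bound _ zero_le_one fun x => ?_
  have hle : ∀ y : X, w y ≤ ‖y‖ := fun y => hw y _ (Eventually.of_forall fun n => by
    calc h n y ≤ ‖h n y‖ := le_abs_self _
      _ ≤ ‖h n‖ * ‖y‖ := (h n).le_opNorm y
      _ ≤ 1 * ‖y‖ := mul_le_mul_of_nonneg_right (hb n) (norm_nonneg _)
      _ = ‖y‖ := one_mul _)
  rw [one_mul, Real.norm_eq_abs, abs_le]
  constructor
  · have := hle (-x)
    rw [map_neg, norm_neg] at this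
    linarith
  · exact hle x

/-- The set `LL h` is not empty. -/
theorem LL_nonempty {h : ℕ → StrongDual ℝ X} (hb : ∀ n, ‖h n‖ ≤ 1) : (LL h).Nonempty := by
  classical
  let U : Ultrafilter ℕ := Ultrafilter.of atTop
  have hU : (U : Filter ℕ) ≤ atTop := Ultrafilter.of_le atTop
  have hex : ∀ x : X, ∃ l : ℝ, |l| ≤ ‖x‖ ∧ Tendsto (fun n => h n x) U (𝓝 l) := by
    intro x
    have hc : IsCompact (Icc (-‖x‖) ‖x‖) := isCompact_Icc
    have hmem : ∀ n, h n x ∈ Icc (-‖x‖) ‖x‖ := by
      intro n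
      have : |h n x| ≤ ‖x‖ := by
        calc |h n x| ≤ ‖h n‖ * ‖x‖ := (h n).le_opNorm x
          _ ≤ 1 * ‖x‖ := mul_le_mul_of_nonneg_right (hb n) (norm_nonneg _)
          _ = ‖x‖ := one_mul _
      exact abs_le.1 this
    have hle : ((U.map fun n => h n x : Ultrafilter ℝ) : Filter ℝ) ≤ 𝓟 (Icc (-‖x‖) ‖x‖) := by
      rw [le_principal_iff]
      exact Filter.mem_map.2 (Eventually.of_forall hmem)
    obtain ⟨l, hl1, hl2⟩ := hc.ultrafilter_le_nhds _ hle
    exact ⟨l, abs_le.2 hl1, hl2⟩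
  choose l hl1 hl2 using hex
  let w : X →ₗ[ℝ] ℝ :=
    { toFun := l
      map_add' := fun x y => by
        have h1 := (hl2 x).add (hl2 y)
        have h2 := hl2 (x + y)
        simp only [map_add] at h2
        exact tendsto_nhds_unique h2 h1
      map_smul' := fun c x => by
        have h1 := (hl2 x).const_mul c
        have h2 := hl2 (c • x)
        simp only [map_smul, smul_eq_mul] at h2
        exact tendsto_nhds_unique h2 h1 }
  let w' : StrongDual ℝ X := w.mkContinuous 1 fun x => by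
    rw [one_mul]
    exact hl1 x
  refine ⟨w', fun x c hc => ?_⟩
  exact le_of_tendsto (hl2 x) (hU hc)

/-- the admissible numbers -/
def Adm (U : StrongDual ℝ X) (R : ℝ) (h : ℕ → StrongDual ℝ X) : Set ℝ :=
  {s | 0 ≤ s ∧ ∃ g ∈ convexHull ℝ (range h), ∃ h', Blk h h' ∧ ∀ w ∈ LL h', ‖U + R • g - w‖ ≤ s}

theorem adm_bddBelow (U : StrongDual ℝ X) (R : ℝ) (h : ℕ → StrongDual ℝ X) :
    BddBelow (Adm U R h) := ⟨0, fun _ hs => hs.1⟩

theorem adm_mem (U : StrongDual ℝ X) {R : ℝ} (hR : 0 ≤ R) (h : ℕ → StrongDual ℝ X)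
    (hb : ∀ n, ‖h n‖ ≤ 1) : ‖U‖ + R + 1 ∈ Adm U R h := by
  refine ⟨by positivity, h 0, subset_convexHull ℝ _ ⟨0, rfl⟩, h, Blk.refl h, fun w hw => ?_⟩
  have h1 := norm_le_of_LL hb hw
  calc ‖U + R • h 0 - w‖ ≤ ‖U + R • h 0‖ + ‖w‖ := norm_sub_le _ _
    _ ≤ ‖U‖ + ‖R • h 0‖ + ‖w‖ := by linarith [norm_add_le U (R • h 0)]
    _ ≤ ‖U‖ + R + 1 := by
        have : ‖R • h 0‖ ≤ R := by
          rw [norm_smul, Real.norm_of_nonneg hR]
          exact mul_le_of_le_one_right hR (hb 0)
        linarith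

/-- One step of the construction. -/
theorem step (U : StrongDual ℝ X) {R : ℝ} (hR : 0 ≤ R) (h : ℕ → StrongDual ℝ X)
    (hb : ∀ n, ‖h n‖ ≤ 1) {ε : ℝ} (hε : 0 < ε) :
    ∃ g ∈ convexHull ℝ (range h), ∃ h', SBlk h h' ∧
      (∀ w ∈ LL h', ‖U + R • g - w‖ ≤ sInf (Adm U R h) + ε) ∧
      (∀ w ∈ LL h', sInf (Adm U R h) - ε ≤ ‖U + R • g - w‖) := by
  obtain ⟨s, hs, hsε⟩ := exists_lt_of_csInf_lt ⟨_, adm_mem U hR h hb⟩
    (lt_add_of_pos_right (sInf (Adm U R h)) hε)
  obtain ⟨hs0, g, hg, h1, hblk, hle⟩ := hs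
  set A : ℝ := sInf (Adm U R h) with hA
  set t : ℝ := A - ε with ht
  rcases lt_or_ge t 0 with ht0 | ht0
  · refine ⟨g, hg, fun n => h1 (n + 1), ?_, ?_, ?_⟩
    · intro n
      exact hblk (n + 1)
    · intro w hw
      have hsub : Blk h1 (fun n => h1 (n + 1)) := fun n =>
        subset_convexHull ℝ _ ⟨n + 1, by simp, rfl⟩
      exact (hle w (hsub.LL_subset hw)).trans hsε.le
    · intro w _
      exact ht0.le.trans (norm_nonneg _)
  · have hnot : t ∉ Adm U R h := notMem_of_lt_csInf (by rw [ht]; linarith) (adm_bddBelow U R h)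
    have hex : ∃ w ∈ LL h1, t < ‖U + R • g - w‖ := by
      by_contra hcon
      push Not at hcon
      exact hnot ⟨ht0, g, hg, h1, hblk, hcon⟩
    obtain ⟨w0, hw0, hw0'⟩ := hex
    -- a vector of norm at most one
    obtain ⟨x, hx1, hx2⟩ : ∃ x : X, ‖x‖ ≤ 1 ∧ t < (U + R • g - w0) x := by
      by_contra hcon
      push Not at hcon
      have : ‖U + R • g - w0‖ ≤ t := by
        refine ContinuousLinearMap.opNorm_le_of_unit_norm ht0 fun x hx => ?_
        rw [Real.norm_eq_abs, abs_le]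
        constructor
        · have h2 := hcon (-x) (by rw [norm_neg]; exact hx.le)
          rw [map_neg] at h2
          linarith
        · exact hcon x hx.le
      linarith
    have hfreq : ∃ᶠ n in atTop, h1 n x < (U + R • g) x - t := by
      intro hev
      have hev' : ∀ᶠ n in atTop, h1 n (-x) ≤ -((U + R • g) x - t) := by
        filter_upwards [hev] with n hn
        rw [map_neg]
        push Not at hn
        linarith
      have h2 := hw0 (-x) _ hev'
      rw [map_neg] at h2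
      have h3 : (U + R • g - w0) x = (U + R • g) x - w0 x := rfl
      rw [h3] at hx2
      linarith
    obtain ⟨φ, hφ, hφ'⟩ := extraction_of_frequently_atTop hfreq
    have hsub : SBlk h1 (fun n => h1 (φ (n + 1))) := fun n =>
      subset_convexHull ℝ _ ⟨φ (n + 1), hφ.id_le (n + 1), rfl⟩
    refine ⟨g, hg, fun n => h1 (φ (n + 1)), hblk.strans hsub, ?_, ?_⟩
    · intro w hw
      exact (hle w (hsub.blk.LL_subset hw)).trans hsε.le
    · intro w hw
      have h4 : w x ≤ (U + R • g) x - t := hw x _ (Eventually.of_forall fun n => (hφ' _).le)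
      have h5 : t ≤ (U + R • g - w) x := by
        have h3 : (U + R • g - w) x = (U + R • g) x - w x := rfl
        rw [h3]
        linarith
      calc t ≤ (U + R • g - w) x := h5
        _ ≤ ‖(U + R • g - w) x‖ := le_abs_self _
        _ ≤ ‖U + R • g - w‖ * ‖x‖ := (U + R • g - w).le_opNorm x
        _ ≤ ‖U + R • g - w‖ * 1 := mul_le_mul_of_nonneg_left hx1 (norm_nonneg _)
        _ = ‖U + R • g - w‖ := mul_one _

/-- The infimum of the admissible numbers increases. -/
theorem adm_mono {U : StrongDual ℝ X} {R q : ℝ} (hR : 0 ≤ R) (hq0 : 0 ≤ q) (hq1 : q ≤ 1)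
    {h h' : ℕ → StrongDual ℝ X} (hb : ∀ n, ‖h n‖ ≤ 1)
    (hblk : Blk h h') {g : StrongDual ℝ X} (hg : g ∈ convexHull ℝ (range h)) :
    sInf (Adm U R h) ≤ sInf (Adm (U + ((1 - q) * R) • g) (q * R) h') := by
  have hb' : ∀ n, ‖h' n‖ ≤ 1 := fun n => norm_le_of_mem_hull
    (by rintro _ ⟨k, -, rfl⟩; exact hb k) (hblk n)
  refine csInf_le_csInf (adm_bddBelow _ _ _) ⟨_, adm_mem _ (by positivity) h' hb'⟩ ?_
  rintro s ⟨hs0, g', hg', h'', hblk', hle⟩
  refine ⟨hs0, (1 - q) • g + q • g', ?_, h'', hblk.trans hblk', ?_⟩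
  · have hg'' : g' ∈ convexHull ℝ (range h) := by
      refine convexHull_min ?_ (convex_convexHull ℝ _) hg'
      rintro _ ⟨k, rfl⟩
      exact convexHull_mono (image_subset_range _ _) (hblk k)
    exact (convex_convexHull ℝ _) hg hg'' (by linarith) hq0 (by ring)
  · intro w hw
    have e : U + R • ((1 - q) • g + q • g') - w = U + ((1 - q) * R) • g + (q * R) • g' - w := by
      rw [smul_add, smul_smul, smul_smul, mul_comm R (1 - q), mul_comm R q]
      abel
    rw [e]
    exact hle w hw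

end Pool.Agent.H516J
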