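import Mathlib
import Pool.Agent.H516_James.James

/-!
# James' theorem, conclusion
-/

set_option autoImplicit false

open Filter Topology Set

namespace Pool.Agent.H516J

variable {X : Type*} [NormedAddCommGroup X] [NormedSpace ℝ X]

/-- The construction of a functional which does not attain its norm. -/
theorem james_main {θ : ℝ} (hθ : 0 < θ) (hθ1 : θ ≤ 1 / 2) (x : ℕ → X) (f : ℕ → StrongDual ℝ X)
    (hx : ∀ n, ‖x n‖ ≤ 1) (hf : ∀ n, ‖f n‖ ≤ 1) (h0 : ∀ k n, n < k → f k (x n) = 0)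
    (h1 : ∀ k n, k ≤ n → θ ≤ f k (x n)) :
    ∃ φ : StrongDual ℝ X, ∀ y, ‖y‖ ≤ 1 → φ y < ‖φ‖ := by
  classical
  set q : ℝ := θ ^ 2 / 8 with hq
  have hq0 : 0 < q := by positivity
  have hq1 : q < 1 := by rw [hq]; nlinarith
  have hqle : q ≤ 1 := hq1.le
  set ε : ℕ → ℝ := fun n => θ ^ 2 * (q / 2) ^ (n + 1) with hεd
  have hε : ∀ n, 0 < ε n := fun n => by simp only [hεd]; positivity
  let St := {p : StrongDual ℝ X × (ℕ → StrongDual ℝ X) // ∀ n, ‖p.2 n‖ ≤ 1}
  have hstep : ∀ (n : ℕ) (p : St), ∃ r : StrongDual ℝ X × (ℕ → StrongDual ℝ X),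
      r.1 ∈ convexHull ℝ (range p.1.2) ∧ SBlk p.1.2 r.2 ∧
      (∀ w ∈ LL r.2, ‖p.1.1 + q ^ n • r.1 - w‖ ≤ sInf (Adm p.1.1 (q ^ n) p.1.2) + ε n) ∧
      (∀ w ∈ LL r.2, sInf (Adm p.1.1 (q ^ n) p.1.2) - ε n ≤ ‖p.1.1 + q ^ n • r.1 - w‖) := by
    intro n p
    obtain ⟨g, hg, h', a1, a2, a3⟩ := step p.1.1 (R := q ^ n) (by positivity) p.1.2 p.2 (hε n)
    exact ⟨(g, h'), hg, a1, a2, a3⟩
  choose r r1 r2 r3 r4 using hstep
  have hbd : ∀ n (p : St), ∀ k, ‖(r n p).2 k‖ ≤ 1 := fun n p k =>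
    norm_le_of_mem_hull (by rintro _ ⟨j, -, rfl⟩; exact p.2 j) (r2 n p k)
  let P : ℕ → St := fun n => Nat.rec ⟨(0, f), hf⟩
    (fun n p => ⟨(p.1.1 + ((1 - q) * q ^ n) • (r n p).1, (r n p).2), hbd n p⟩) n
  set g : ℕ → StrongDual ℝ X := fun n => (r n (P n)).1 with hgd
  set h : ℕ → ℕ → StrongDual ℝ X := fun n => (P n).1.2 with hhd
  set U : ℕ → StrongDual ℝ X := fun n => (P n).1.1 with hUd
  set A : ℕ → ℝ := fun n => sInf (Adm (U n) (q ^ n) (h n)) with hAd
  have hU0 : U 0 = 0 := rfl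
  have hh0 : h 0 = f := rfl
  have hUs : ∀ n, U (n + 1) = U n + ((1 - q) * q ^ n) • g n := fun n => rfl
  have F7 : ∀ n k, ‖h n k‖ ≤ 1 := fun n k => (P n).2 k
  have F1 : ∀ n, g n ∈ convexHull ℝ (range (h n)) := fun n => r1 n (P n)
  have F2 : ∀ n, SBlk (h n) (h (n + 1)) := fun n => r2 n (P n)
  have F3 : ∀ n, ∀ w ∈ LL (h (n + 1)), ‖U n + q ^ n • g n - w‖ ≤ A n + ε n := fun n => r3 n (P n)
  have F4 : ∀ n, ∀ w ∈ LL (h (n + 1)), A n - ε n ≤ ‖U n + q ^ n • g n - w‖ := fun n => r4 n (P n)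
  have F7' : ∀ n, ‖g n‖ ≤ 1 := fun n => norm_le_of_mem_hull (by rintro _ ⟨j, rfl⟩; exact F7 n j) (F1 n)
  have F6 : Monotone A := by
    refine monotone_nat_of_le_succ fun n => ?_
    have h5 := adm_mono (U := U n) (R := q ^ n) (q := q) (by positivity) hq0.le hqle (F7 n)
      (F2 n).blk (F1 n)
    rw [← pow_succ'] at h5
    exact h5
  -- blocks of blocks
  have F8a : ∀ n m j, h (n + m) j ∈ convexHull ℝ (h n '' {i | j + m ≤ i}) := by
    intro n m
    induction m with
    | zero =>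
      intro j
      exact subset_convexHull ℝ _ ⟨j, le_refl j, rfl⟩
    | succ m ih =>
      intro j
      refine convexHull_min ?_ (convex_convexHull ℝ _) (F2 (n + m) j)
      rintro _ ⟨k, hk, rfl⟩
      refine convexHull_mono (image_mono ?_) (ih k)
      intro i hi
      have hk' : j + 1 ≤ k := hk
      have hi' : k + m ≤ i := hi
      show j + (m + 1) ≤ i
      omega
  have F8b : ∀ n m, g (n + m) ∈ convexHull ℝ (h n '' {i | m ≤ i}) := by
    intro n m
    refine convexHull_min ?_ (convex_convexHull ℝ _) (F1 (n + m))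
    rintro _ ⟨k, rfl⟩
    refine convexHull_mono (image_mono ?_) (F8a n m k)
    intro i hi
    have hi' : k + m ≤ i := hi
    show m ≤ i
    omega
  have F8 : ∀ n, LL g ⊆ LL (h n) := by
    intro n w hw y c hc
    refine hw y c ?_
    obtain ⟨N, hN⟩ := eventually_atTop.1 hc
    filter_upwards [eventually_ge_atTop (n + N)] with k hk
    obtain ⟨m, rfl⟩ : ∃ m, k = n + m := ⟨k - n, by omega⟩
    refine le_of_mem_hull ?_ (F8b n m)
    rintro _ ⟨i, hi, rfl⟩
    have hi' : m ≤ i := hi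
    exact hN i (by omega)
  obtain ⟨w, hw⟩ := LL_nonempty F7'
  have hw1 : ‖w‖ ≤ 1 := norm_le_of_LL F7' hw
  -- the size of `U`
  have hUn : ∀ n, ‖U n‖ ≤ 1 - q ^ n := by
    intro n
    induction n with
    | zero => simp [hU0]
    | succ n ih =>
      rw [hUs]
      have h5 : ‖((1 - q) * q ^ n) • g n‖ ≤ (1 - q) * q ^ n := by
        rw [norm_smul, Real.norm_of_nonneg (mul_nonneg (by linarith) (by positivity))]
        exact mul_le_of_le_one_right (mul_nonneg (by linarith) (by positivity)) (F7' n)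
      calc ‖U n + ((1 - q) * q ^ n) • g n‖ ≤ ‖U n‖ + ‖((1 - q) * q ^ n) • g n‖ := norm_add_le _ _
        _ ≤ (1 - q ^ n) + (1 - q) * q ^ n := add_le_add ih h5
        _ = 1 - q ^ (n + 1) := by rw [pow_succ]; ring
  have hA2 : ∀ n, A n ≤ 2 := by
    intro n
    have h5 := csInf_le (adm_bddBelow (U n) (q ^ n) (h n)) (adm_mem (U n) (R := q ^ n)
      (by positivity) (h n) (F7 n))
    linarith [hUn n]
  have hAb : BddAbove (range A) := ⟨2, by rintro _ ⟨n, rfl⟩; exact hA2 n⟩
  set α : ℝ := ⨆ n, A n with hα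
  have hAα : ∀ n, A n ≤ α := fun n => le_ciSup hAb n
  have hAt : Tendsto A atTop (𝓝 α) := tendsto_atTop_ciSup F6 hAb
  -- `θ ≤ α`
  have hθA : θ ≤ A 0 := by
    refine le_csInf ⟨_, adm_mem (U 0) (R := q ^ 0) (by positivity) (h 0) (F7 0)⟩ ?_
    rintro s ⟨hs0, u, hu, h', hblk, hle⟩
    rw [hh0] at hu hblk
    have hb' : ∀ n, ‖h' n‖ ≤ 1 := fun n => norm_le_of_mem_hull
      (by rintro _ ⟨k, -, rfl⟩; exact hf k) (hblk n)
    obtain ⟨v, hv⟩ := LL_nonempty hb'
    have hv' := hblk.LL_subset hv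
    have hvx : ∀ n, v (x n) ≤ 0 := fun n => hv' (x n) 0 (by
      filter_upwards [eventually_gt_atTop n] with k hk
      exact (h0 k n hk).le)
    have hux : ∃ N, ∀ n, N ≤ n → θ ≤ u (x n) := by
      have hconv : Convex ℝ {u : StrongDual ℝ X | ∃ N, ∀ n, N ≤ n → θ ≤ u (x n)} := by
        rintro u ⟨N, hN⟩ v ⟨M, hM⟩ a b ha hb hab
        refine ⟨max N M, fun n hn => ?_⟩
        have h5 : (a • u + b • v) (x n) = a * u (x n) + b * v (x n) := by simp
        rw [h5]
        have h6 := hN n ((le_max_left _ _).trans hn)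
        have h7 := hM n ((le_max_right _ _).trans hn)
        calc θ = a * θ + b * θ := by rw [← add_mul, hab, one_mul]
          _ ≤ a * u (x n) + b * v (x n) :=
            add_le_add (mul_le_mul_of_nonneg_left h6 ha) (mul_le_mul_of_nonneg_left h7 hb)
      exact convexHull_min (by rintro _ ⟨k, rfl⟩; exact ⟨k, fun n hn => h1 k n hn⟩) hconv hu
    obtain ⟨N, hN⟩ := hux
    have h5 := hle v hv
    have h6 : U 0 + q ^ 0 • u - v = u - v := by rw [hU0]; simp
    rw [h6] at h5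
    calc θ ≤ u (x N) - v (x N) := by linarith [hN N le_rfl, hvx N]
      _ = (u - v) (x N) := rfl
      _ ≤ ‖(u - v) (x N)‖ := le_abs_self _
      _ ≤ ‖u - v‖ * ‖x N‖ := (u - v).le_opNorm _
      _ ≤ ‖u - v‖ * 1 := mul_le_mul_of_nonneg_left (hx N) (norm_nonneg _)
      _ ≤ s := by rw [mul_one]; exact h5
  have hθα : θ ≤ α := hθA.trans (hAα 0)
  -- the limit of `U`
  have hdist : ∀ n, dist (U n) (U (n + 1)) ≤ (1 - q) * q ^ n := by
    intro n
    rw [hUs, dist_eq_norm]
    have e : U n - (U n + ((1 - q) * q ^ n) • g n) = -(((1 - q) * q ^ n) • g n) := by abel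
    rw [e, norm_neg, norm_smul, Real.norm_of_nonneg (mul_nonneg (by linarith) (by positivity))]
    exact mul_le_of_le_one_right (mul_nonneg (by linarith) (by positivity)) (F7' n)
  obtain ⟨G, hG⟩ := cauchySeq_tendsto_of_complete (cauchySeq_of_le_geometric q (1 - q) hq1 hdist)
  have hGU : ∀ n, ‖G - U n‖ ≤ q ^ n := by
    intro n
    have h5 := dist_le_of_le_geometric_of_tendsto q (1 - q) hq1 hdist hG n
    rw [dist_comm, dist_eq_norm] at h5
    have h6 : (1 - q) * q ^ n / (1 - q) = q ^ n := by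
      have : (1 - q) ≠ 0 := by linarith
      field_simp
    rw [h6] at h5
    exact h5
  -- the bounds for the partial sums
  have hD : ∀ n, ‖U n - (1 - q ^ n) • w‖ ≤ α * (1 - θ * (1 + (1 / 2) ^ n) * q ^ n) := by
    intro n
    induction n with
    | zero =>
      have e : U 0 - (1 - q ^ 0) • w = 0 := by rw [hU0]; simp
      rw [e, norm_zero]
      have : 0 ≤ 1 - θ * (1 + (1 / 2) ^ 0) * q ^ 0 := by norm_num; linarith
      exact mul_nonneg (hθ.le.trans hθα) this
    | succ n ih =>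
      have e : U (n + 1) - (1 - q ^ (n + 1)) • w =
          (1 - q) • (U n + q ^ n • g n - w) + q • (U n - (1 - q ^ n) • w) := by
        rw [hUs, pow_succ]
        module
      have h5 : ‖U n + q ^ n • g n - w‖ ≤ α + ε n := (F3 n w (F8 (n + 1) hw)).trans (by
        linarith [hAα n])
      have h6 : ‖U (n + 1) - (1 - q ^ (n + 1)) • w‖ ≤
          (1 - q) * (α + ε n) + q * (α * (1 - θ * (1 + (1 / 2) ^ n) * q ^ n)) := by
        rw [e]
        refine (norm_add_le _ _).trans ?_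
        rw [norm_smul, norm_smul, Real.norm_of_nonneg (by linarith : (0 : ℝ) ≤ 1 - q),
          Real.norm_of_nonneg hq0.le]
        exact add_le_add (mul_le_mul_of_nonneg_left h5 (by linarith))
          (mul_le_mul_of_nonneg_left ih hq0.le)
      refine h6.trans ?_
      have h7 : (1 - q) * ε n ≤ ε n := by nlinarith [hε n]
      have h8 : ε n ≤ α * θ * ((1 / 2) ^ (n + 1) * q ^ (n + 1)) := by
        have e3 : ε n = θ * θ * ((1 / 2) ^ (n + 1) * q ^ (n + 1)) := by
          simp only [hεd]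
          rw [div_pow, one_div, inv_pow]
          ring
        rw [e3]
        refine mul_le_mul_of_nonneg_right ?_ (by positivity)
        exact mul_le_mul_of_nonneg_right hθα hθ.le
      have e4 : q * (α * (1 - θ * (1 + (1 / 2) ^ n) * q ^ n)) =
          q * α - α * θ * q ^ (n + 1) - 2 * (α * θ * ((1 / 2) ^ (n + 1) * q ^ (n + 1))) := by
        rw [pow_succ, pow_succ]
        ring
      have e5 : α * (1 - θ * (1 + (1 / 2) ^ (n + 1)) * q ^ (n + 1)) =
          α - α * θ * q ^ (n + 1) - α * θ * ((1 / 2) ^ (n + 1) * q ^ (n + 1)) := by ring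
      rw [e4, e5]
      linarith
  -- the lower bound for the norm
  have hlow : α ≤ ‖G - w‖ := by
    have h5 : ∀ n, A n - ε n - 2 * q ^ n ≤ ‖G - w‖ := by
      intro n
      have h6 := F4 n w (F8 (n + 1) hw)
      have e : U n + q ^ n • g n - w = (G - w) + (-(G - U n)) + q ^ n • g n := by abel
      have h7 : ‖U n + q ^ n • g n - w‖ ≤ ‖G - w‖ + q ^ n + q ^ n := by
        rw [e]
        refine (norm_add_le _ _).trans (add_le_add ((norm_add_le _ _).trans ?_) ?_)
        · rw [norm_neg]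
          linarith [hGU n]
        · rw [norm_smul, Real.norm_of_nonneg (by positivity)]
          exact mul_le_of_le_one_right (by positivity) (F7' n)
      linarith
    have hε0 : Tendsto ε atTop (𝓝 0) := by
      have h6 : Tendsto (fun n : ℕ => (q / 2) ^ n) atTop (𝓝 0) :=
        tendsto_pow_atTop_nhds_zero_of_lt_one (by positivity) (by linarith)
      have h7 := ((tendsto_add_atTop_iff_nat 1).2 h6).const_mul (θ ^ 2)
      simpa [hεd] using h7
    have hq0' : Tendsto (fun n : ℕ => q ^ n) atTop (𝓝 0) :=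
      tendsto_pow_atTop_nhds_zero_of_lt_one hq0.le hq1
    have h8 := (hAt.sub hε0).sub (hq0'.const_mul 2)
    simp only [sub_zero, mul_zero] at h8
    exact le_of_tendsto' h8 h5
  -- the norm is not attained
  refine ⟨G - w, fun y hy => ?_⟩
  by_contra hcon
  push Not at hcon
  have hαy : α ≤ (G - w) y := hlow.trans hcon
  obtain ⟨n, hn⟩ : ∃ n, g n y < w y + θ ^ 2 / 4 := by
    by_contra hno
    push Not at hno
    have h5 := hw (-y) (-(w y + θ ^ 2 / 4)) (Eventually.of_forall fun n => by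
      rw [map_neg]
      linarith [hno n])
    rw [map_neg] at h5
    have : 0 < θ ^ 2 := by positivity
    linarith
  have key : (G - w) y = (U n - (1 - q ^ n) • w) y + (1 - q) * q ^ n * (g n y - w y) +
      ((G - U (n + 1)) y - q ^ (n + 1) * w y) := by
    have e1 : U (n + 1) y = U n y + ((1 - q) * q ^ n) * g n y := by rw [hUs]; rfl
    have e2 : (G - w) y = G y - w y := rfl
    have e3 : (U n - (1 - q ^ n) • w) y = U n y - (1 - q ^ n) * w y := rfl
    have e4 : (G - U (n + 1)) y = G y - U (n + 1) y := rfl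
    rw [e2, e3, e4, e1, pow_succ]
    ring
  have hbound : ∀ (u : StrongDual ℝ X) (c : ℝ), ‖u‖ ≤ c → |u y| ≤ c := by
    intro u c hu
    calc |u y| ≤ ‖u‖ * ‖y‖ := u.le_opNorm y
      _ ≤ ‖u‖ * 1 := mul_le_mul_of_nonneg_left hy (norm_nonneg _)
      _ ≤ c := by rw [mul_one]; exact hu
  have b1 := (abs_le.1 (hbound _ _ (hD n))).2
  have b2 := (abs_le.1 (hbound _ _ (hGU (n + 1)))).2
  have b3 := (abs_le.1 (hbound _ _ hw1)).1
  have hqn : 0 < q ^ n := by positivity
  have b4 : (1 - q) * q ^ n * (g n y - w y) ≤ q ^ n * (θ ^ 2 / 4) := by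
    have h5 : g n y - w y ≤ θ ^ 2 / 4 := by linarith
    have h6 : 0 ≤ (1 - q) * q ^ n := mul_nonneg (by linarith) hqn.le
    calc (1 - q) * q ^ n * (g n y - w y) ≤ (1 - q) * q ^ n * (θ ^ 2 / 4) :=
          mul_le_mul_of_nonneg_left h5 h6
      _ ≤ q ^ n * (θ ^ 2 / 4) := by
          refine mul_le_mul_of_nonneg_right ?_ (by positivity)
          nlinarith
  have b5 : α * (1 - θ * (1 + (1 / 2) ^ n) * q ^ n) ≤ α - θ ^ 2 * q ^ n := by
    have h5 : (0 : ℝ) < (1 / 2) ^ n := by positivity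
    have h6 : θ ^ 2 ≤ α * θ := by nlinarith
    have h7 : 0 ≤ α * θ * (1 / 2) ^ n * q ^ n := by
      have := hθ.le.trans hθα
      positivity
    nlinarith
  have b6 : q ^ (n + 1) = q ^ n * q := pow_succ _ _
  rw [key] at hαy
  rw [b6] at b2
  have b7 : (G - U (n + 1)) y - q ^ (n + 1) * w y ≤ 2 * (q ^ n * q) := by
    rw [b6]
    have h5 : -(q ^ n * q * w y) ≤ q ^ n * q := by
      have h6 : 0 < q ^ n * q := by positivity
      nlinarith
    linarith
  have b8 : q ^ n * q = q ^ n * (θ ^ 2 / 8) := by rw [hq]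
  have hfin : 0 < q ^ n * θ ^ 2 := by positivity
  nlinarith

/-- **James' theorem.** If every continuous functional on a real Banach space attains its norm on
the unit ball, the space is reflexive. -/
theorem james {X : Type*} [NormedAddCommGroup X] [NormedSpace ℝ X] [CompleteSpace X]
    (h : ∀ φ : StrongDual ℝ X, ∃ y, ‖y‖ ≤ 1 ∧ φ y = ‖φ‖) :
    Function.Surjective (NormedSpace.inclusionInDoubleDual ℝ X) := by
  by_contra hX
  obtain ⟨θ, hθ, x, f, hx, hf, h0, h1⟩ := Helper902.NA.james_seq hX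
  obtain ⟨φ, hφ⟩ := james_main (θ := min θ (1 / 2)) (lt_min hθ (by norm_num)) (min_le_right _ _)
    x f hx hf h0 (fun k n hkn => (min_le_left _ _).trans (h1 k n hkn))
  obtain ⟨y, hy, hy'⟩ := h φ
  exact absurd hy' (hφ y hy).ne

end Pool.Agent.H516J
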